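import Pool.Agent.Helper27.BG.St1
import Pool.Agent.Helper90.MT.Til1

/-!
# Project BG, module MRG: passing to the marginal
-/

set_option autoImplicit false

namespace Pool.Agent.Helper27.BG

open Finset
open Pool.Agent.Helper90.MT

theorem hMrg : StMrg := by
  intro α ι _ _ _ _ pr sh m Y n _ hn
  classical
  unfold LF
  refine Finset.sum_congr rfl fun b _ => ?_
  by_cases hb : mat pr sh b n
  · rw [if_pos hb, if_pos hb]
    have hav : Avd {m} b := by
      intro i h hh hbi
      rw [mem_singleton] at hh
      subst hh
      exact hn i (hb i h hbi)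
    rw [til_lam pr {m} Y b hav]
    unfold lam
    rw [sum_filter]
    refine Finset.sum_congr rfl fun a _ => ?_
    unfold Vm
    by_cases ha : Avd {m} a
    · rw [if_pos ha, if_pos ha]
    · rw [if_neg ha, if_neg ha, mul_zero]
  · rw [if_neg hb, if_neg hb]

end Pool.Agent.Helper27.BG
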